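import Pool.Agent.Helper30.ML.Goals

/-!
# Project ML (MP_bf413e_co), packet KB: basic facts on Kempe changes
-/

set_option autoImplicit false

namespace Pool.Agent.Helper89.ML

open scoped Classical
open Finset
open Pool.Agent.Helper94.KC (Proper InChain KStep KEq AllEq dR QG Even2 StmtUN StmtKL)
open Pool.Agent.Helper30.ML

section

variable {V : Type} {G : SimpleGraph V}

theorem inChain_adj {f : V → Fin 5} {a b : Fin 5} {x u v : V} (h : InChain G f a b x u)
    (huv : G.Adj u v) (hv : f v = a ∨ f v = b) : InChain G f a b x v := by
  obtain ⟨hx, hu, hr⟩ := h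
  refine ⟨hx, hv, hr.trans ?_⟩
  apply SimpleGraph.Adj.reachable
  simpa using huv

theorem inChain_col {f : V → Fin 5} {a b : Fin 5} {x u : V} (h : InChain G f a b x u) :
    f u = a ∨ f u = b := h.2.1

theorem inChain_refl {f : V → Fin 5} {a b : Fin 5} {x : V} (hx : f x = a ∨ f x = b) :
    InChain G f a b x x := ⟨hx, hx, SimpleGraph.Reachable.refl _⟩

theorem inChain_congr {f g : V → Fin 5} {a b : Fin 5}
    (h : {v | f v = a ∨ f v = b} = {v | g v = a ∨ g v = b}) (x y : V) :
    InChain G f a b x y ↔ InChain G g a b x y := by
  unfold InChain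
  rw [h]

theorem swap_mem {a b c : Fin 5} (h : c = a ∨ c = b) :
    Equiv.swap a b c = a ∨ Equiv.swap a b c = b := by
  rcases h with rfl | rfl
  · right; exact Equiv.swap_apply_left _ _
  · left; exact Equiv.swap_apply_right _ _

theorem step_proper {f g : V → Fin 5} (h : KStep G f g) (hf : Proper G f) : Proper G g := by
  obtain ⟨a, b, x, hx, hy⟩ := h
  intro u v huv
  by_cases hu : InChain G f a b x u <;> by_cases hv : InChain G f a b x v
  · rw [(hy u).1 hu, (hy v).1 hv]
    exact fun h => hf u v huv ((Equiv.swap a b).injective h)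
  · rw [(hy u).1 hu, (hy v).2 hv]
    intro h
    apply hv
    apply inChain_adj hu huv
    rw [← h]
    exact swap_mem (inChain_col hu)
  · rw [(hy u).2 hu, (hy v).1 hv]
    intro h
    apply hu
    apply inChain_adj hv huv.symm
    rw [h]
    exact swap_mem (inChain_col hv)
  · rw [(hy u).2 hu, (hy v).2 hv]
    exact hf u v huv

theorem step_symm {f g : V → Fin 5} (h : KStep G f g) : KStep G g f := by
  obtain ⟨a, b, x, hx, hy⟩ := h
  have hset : {v | g v = a ∨ g v = b} = {v | f v = a ∨ f v = b} := by
    ext v
    change (g v = a ∨ g v = b) ↔ (f v = a ∨ f v = b)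
    by_cases hv : InChain G f a b x v
    · have h1 := inChain_col hv
      rw [(hy v).1 hv]
      exact ⟨fun _ => h1, fun _ => swap_mem h1⟩
    · rw [(hy v).2 hv]
  refine ⟨a, b, x, ?_, ?_⟩
  · rw [(hy x).1 (inChain_refl hx)]
    exact swap_mem hx
  · intro y
    rw [inChain_congr hset]
    constructor
    · intro h
      rw [(hy y).1 h, Equiv.swap_apply_self]
    · intro h
      rw [(hy y).2 h]

theorem chain_walk {f : V → Fin 5} {a b : Fin 5} {x : V} {p q : {v | f v = a ∨ f v = b}}
    (w : (G.induce {v | f v = a ∨ f v = b}).Walk p q) (hp : InChain G f a b x p.1) :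
    (rs G {y | InChain G f a b x y}).Reachable p.1 q.1 := by
  induction w with
  | nil => exact SimpleGraph.Reachable.refl _
  | @cons u v z h w ih =>
    have huv : G.Adj u.1 v.1 := by simpa using h
    have hv : InChain G f a b x v.1 := inChain_adj hp huv v.2
    have h1 : (rs G {y | InChain G f a b x y}).Adj u.1 v.1 := ⟨huv, hp, hv⟩
    exact h1.reachable.trans (ih hv)

theorem chain_single {f : V → Fin 5} {a b : Fin 5} {v y : V}
    (h : ∀ z, G.Adj v z → ¬ (f z = a ∨ f z = b)) (hy : InChain G f a b v y) : y = v := by
  obtain ⟨hx, hy', ⟨w⟩⟩ := hy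
  cases w with
  | nil => rfl
  | @cons _ z _ h1 w =>
    exfalso
    have h2 : G.Adj v z.1 := by simpa using h1
    exact h z.1 h2 z.2

end

/-- Packet KB. -/
theorem pKB (hUN : StmtUN) : StmtKB := by
  refine ⟨?_, ?_, ?_, ?_, ?_, ?_⟩
  · intro V G f g h hf
    induction h with
    | refl => exact hf
    | tail _ h ih => exact step_proper h ih
  · intro V G f g h
    exact step_symm h
  · intro V G f g h
    induction h with
    | refl => exact Relation.ReflTransGen.refl
    | tail _ h ih => exact Relation.ReflTransGen.head (step_symm h) ih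
  · intro V _ G G' f g hle h
    induction h with
    | refl => exact Relation.ReflTransGen.refl
    | @tail g g' _ h ih =>
      refine ih.trans ?_
      obtain ⟨a, b, x, hx, hy⟩ := h
      have h1 := hUN V G g a b (univ.filter (fun y => InChain G' g a b x y)) ?_ ?_
      · have h2 : (fun y => if y ∈ univ.filter (fun y => InChain G' g a b x y) then
            Equiv.swap a b (g y) else g y) = g' := by
          funext y
          by_cases hc : InChain G' g a b x y
          · rw [if_pos (by simpa using hc), (hy y).1 hc]
          · rw [if_neg (by simpa using hc), (hy y).2 hc]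
        rw [h2] at h1
        exact h1
      · intro y hy1
        exact inChain_col (by simpa using hy1)
      · intro u hu v huv hv
        have h3 : InChain G' g a b x u := by simpa using hu
        simpa using inChain_adj h3 (hle huv) hv
  · intro V G f a b x hx
    refine ⟨?_, ?_, ?_, ?_⟩
    · apply Relation.ReflTransGen.single
      exact ⟨a, b, x, hx, fun y => ⟨fun h => if_pos h, fun h => if_neg h⟩⟩
    · intro y hy
      exact inChain_col hy
    · refine ⟨⟨x, inChain_refl hx⟩, ?_⟩
      have key : ∀ y, InChain G f a b x y →
          (rs G {y | InChain G f a b x y}).Reachable x y := by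
        intro y hy
        obtain ⟨h1, h2, ⟨w⟩⟩ := id hy
        exact chain_walk w (inChain_refl hx)
      intro u hu v hv
      exact (key u hu).symm.trans (key v hv)
    · exact inChain_refl hx
  · intro V G f b v hf hb
    apply Relation.ReflTransGen.single
    have hno : ∀ z, G.Adj v z → ¬ (f z = f v ∨ f z = b) := by
      rintro z hz (h | h)
      · exact hf v z hz h.symm
      · exact hb z hz h
    refine ⟨f v, b, v, Or.inl rfl, fun y => ⟨?_, ?_⟩⟩
    · intro h
      have := chain_single hno h
      subst this
      rw [Function.update_self, Equiv.swap_apply_left]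
    · intro h
      apply Function.update_of_ne
      rintro rfl
      exact h (inChain_refl (Or.inl rfl))

end Pool.Agent.Helper89.ML
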